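import Pool.Agent.Helper22.SC.Conv

/-! # The Cohen poset (module H1) -/

namespace Pool.Agent.Helper74.SC.H1

universe u

open ZFSet
open Pool.Agent.Helper66.SC (Fml Sat IsZF Cls mem_Pow img mem_img tc CardLe FP Coh real
  IsGeneric Homog BL ST_F2 ST_H1 oz nz)
open Pool.Agent.Helper22.SC (U ZCls Ctx in_prod in_zfset In)
open Pool.Agent.Helper22.SC

/-- The class of transitive models of ZF. -/
abbrev CC : Cls.{u} := fun M A => IsZF M A

theorem nz_eq (n : ℕ) : (nz n : ZFSet.{u}) = nat n := rfl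

/-- the set `2` -/
noncomputable abbrev two : ZFSet.{u} := {∅, {∅}}

theorem mem_two {x : ZFSet.{u}} : x ∈ (two : ZFSet.{u}) ↔ x = ∅ ∨ x = {∅} := by
  simp [two]

theorem zero_ne_one : (∅ : ZFSet.{u}) ≠ {∅} := by
  intro h
  have h1 : (∅ : ZFSet.{u}) ∈ ({∅} : ZFSet.{u}) := by simp
  rw [← h] at h1
  exact notMem_empty _ h1

theorem mem_Coh {M A : Set ZFSet.{u}} (hM : IsZF M A) {p : ZFSet.{u}} :
    p ∈ Coh M ↔ p ∈ M ∧ p ⊆ ZFSet.omega.prod two ∧
      (∀ x y z, pair x y ∈ p → pair x z ∈ p → y = z) ∧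
      ∃ n : ℕ, ∀ x y, pair x y ∈ p → x ∈ nat n := by
  unfold Coh FP
  rw [mem_sep, mem_Pow]
  constructor
  · rintro ⟨⟨h1, h2⟩, h3, h4, d, hd, h5⟩
    rw [mem_sep] at hd
    obtain ⟨hd1, n, hn⟩ := hd
    exact ⟨h1, h2, h3, n, fun x y h => hn ((h5 x).2 ⟨y, h⟩)⟩
  · rintro ⟨h1, h2, h3, n, hn⟩
    refine ⟨⟨h1, h2⟩, h3, ?_, dom p, ?_, fun x => mem_dom⟩
    · intro s hs
      have := h2 hs
      rw [mem_prod] at this
      obtain ⟨a, _, b, _, h⟩ := this
      exact ⟨a, b, h⟩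
    · rw [mem_sep, mem_Pow]
      refine ⟨⟨?_, ?_⟩, n, ?_⟩
      · simpa using (U.dom (C := CC) (α := ZFSet.{u}) U.id).closed hM (a := p) (by simp [h1])
      · intro x hx
        obtain ⟨y, hy⟩ := mem_dom.1 hx
        exact (pair_mem_prod.1 (h2 hy)).1
      · intro x hx
        obtain ⟨y, hy⟩ := mem_dom.1 hx
        exact hn x y hy

section

variable {M A : Set ZFSet.{u}} (hM : IsZF M A)
include hM

theorem empty_mem_Coh : ∅ ∈ Coh M := by
  rw [mem_Coh hM]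
  exact ⟨hM.empty_mem, fun x hx => absurd hx (notMem_empty _),
    fun x y z h => absurd h (notMem_empty _), 0, fun x y h => absurd h (notMem_empty _)⟩

theorem two_mem : (two : ZFSet.{u}) ∈ M := by
  have h1 := hM.insert_mem hM.empty_mem hM.empty_mem
  have h2 : (insert ∅ ∅ : ZFSet.{u}) = {∅} := by ext z; simp
  rw [h2] at h1
  exact hM.pair _ hM.empty_mem _ h1

theorem nat_mem_M (n : ℕ) : (nat n : ZFSet.{u}) ∈ M := hM.trans _ hM.omega _ (nat_mem_omega n)

theorem T_mem : (ZFSet.omega.prod two : ZFSet.{u}) ∈ M := by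
  have := (U.prod (C := CC) (α := ZFSet.{u} × ZFSet.{u}) U.id.fst U.id.snd).closed hM
    (a := (ZFSet.omega, two)) (by simp only [in_prod, in_zfset]; exact ⟨hM.omega, two_mem hM⟩)
  simpa using this

theorem J_mem : ((Helper66.SC.Pow M ZFSet.omega).sep (fun d => ∃ n : ℕ, d ⊆ nz n) : ZFSet.{u}) ∈ M := by
  have h : U CC (fun N _ (_ : PUnit.{u + 2}) => ZFSet.sep (fun d => ∃ n ∈ ZFSet.omega, d ⊆ n)
      (Helper66.SC.Pow N ZFSet.omega)) := by
    apply_rules (transparency := .reducible) (maxDepth := 400) using is_poly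
  have h1 := in_zfset.1 (h.closed hM (a := PUnit.unit) (by simp))
  have h2 : ((Helper66.SC.Pow M ZFSet.omega).sep (fun d => ∃ n : ℕ, d ⊆ nz n) : ZFSet.{u}) =
      ZFSet.sep (fun d => ∃ n ∈ ZFSet.omega, d ⊆ n) (Helper66.SC.Pow M ZFSet.omega) := by
    ext d
    rw [mem_sep, mem_sep]
    refine and_congr_right fun _ => ?_
    constructor
    · rintro ⟨n, hn⟩
      exact ⟨nat n, nat_mem_omega n, hn⟩
    · rintro ⟨x, hx, hd⟩
      obtain ⟨n, rfl⟩ := mem_omega.1 hx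
      exact ⟨n, hd⟩
  rw [h2]
  exact h1

theorem Coh_mem : Coh M ∈ M := by
  have hsub : U CC (fun N _ (_ : PUnit.{u + 2}) => ZFSet.sep (fun p =>
      (∀ s ∈ p, ∀ t ∈ p, Helper22.SC.pfst s = Helper22.SC.pfst t → s = t) ∧
      ∃ n ∈ ZFSet.omega, ∀ s ∈ p, Helper22.SC.pfst s ∈ n)
      (Helper66.SC.Pow N (ZFSet.prod ZFSet.omega {∅, {∅}}))) := by
    apply_rules (transparency := .reducible) (maxDepth := 400) using is_poly
  have h1 := in_zfset.1 (hsub.closed hM (a := PUnit.unit) (by simp))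
  have h2 : Coh M = ZFSet.sep (fun p =>
      (∀ s ∈ p, ∀ t ∈ p, Helper22.SC.pfst s = Helper22.SC.pfst t → s = t) ∧
      ∃ n ∈ ZFSet.omega, ∀ s ∈ p, Helper22.SC.pfst s ∈ n)
      (Helper66.SC.Pow M (ZFSet.prod ZFSet.omega {∅, {∅}})) := by
    ext p
    rw [mem_Coh hM, mem_sep, mem_Pow]
    constructor
    · rintro ⟨h1, h2, h3, n, h4⟩
      refine ⟨⟨h1, h2⟩, ?_, nat n, nat_mem_omega n, ?_⟩
      · intro s hs t ht hst
        obtain ⟨a, _, b, _, rfl⟩ := mem_prod.1 (h2 hs)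
        obtain ⟨a', _, b', _, rfl⟩ := mem_prod.1 (h2 ht)
        rw [pfst_pair, pfst_pair] at hst
        subst hst
        rw [h3 a b b' hs ht]
      · intro s hs
        obtain ⟨a, _, b, _, rfl⟩ := mem_prod.1 (h2 hs)
        rw [pfst_pair]
        exact h4 a b hs
    · rintro ⟨⟨h1, h2⟩, h3, m, hm, h4⟩
      obtain ⟨n, rfl⟩ := mem_omega.1 hm
      refine ⟨h1, h2, ?_, n, ?_⟩
      · intro x y z hy hz
        exact (pair_inj.1 (h3 _ hy _ hz (by rw [pfst_pair, pfst_pair]))).2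
      · intro x y hxy
        have := h4 _ hxy
        rwa [pfst_pair] at this
  rw [h2]
  exact h1

omit hM in
theorem nat_mono {m n : ℕ} (h : m ≤ n) : (nat m : ZFSet.{u}) ⊆ nat n := by
  intro x hx
  obtain ⟨k, hk, rfl⟩ := mem_nat.1 hx
  exact nat_mem_nat.2 (hk.trans_le h)

theorem union_mem {p q : ZFSet.{u}} (hp : p ∈ Coh M) (hq : q ∈ Coh M)
    (h : ∀ x y z, pair x y ∈ p → pair x z ∈ q → y = z) : p ∪ q ∈ Coh M := by
  rw [mem_Coh hM] at *
  obtain ⟨p1, p2, p3, n, p4⟩ := hp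
  obtain ⟨q1, q2, q3, m, q4⟩ := hq
  refine ⟨?_, ?_, ?_, max n m, ?_⟩
  · have := (U.union (C := CC) (α := ZFSet.{u} × ZFSet.{u}) U.id.fst U.id.snd).closed hM
      (a := (p, q)) (by simp [p1, q1])
    simpa using this
  · intro x hx
    rcases mem_union.1 hx with hx | hx
    · exact p2 hx
    · exact q2 hx
  · intro x y z h1 h2
    rcases mem_union.1 h1 with h1 | h1 <;> rcases mem_union.1 h2 with h2 | h2
    · exact p3 x y z h1 h2
    · exact h x y z h1 h2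
    · exact (h x z y h2 h1).symm
    · exact q3 x y z h1 h2
  · intro x y h1
    rcases mem_union.1 h1 with h1 | h1
    · exact nat_mono (le_max_left _ _) (p4 x y h1)
    · exact nat_mono (le_max_right _ _) (q4 x y h1)

theorem single_mem {n : ℕ} {i : ZFSet.{u}} (hi : i ∈ (two : ZFSet.{u})) :
    ({pair (nat n) i} : ZFSet.{u}) ∈ Coh M := by
  rw [mem_Coh hM]
  refine ⟨?_, ?_, ?_, n + 1, ?_⟩
  · have h1 := hM.insert_mem (hM.pair_mem (nat_mem_M hM n) (hM.trans _ (two_mem hM) _ hi))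
      hM.empty_mem
    have h2 : (insert (pair (nat n) i) ∅ : ZFSet.{u}) = {pair (nat n) i} := by ext z; simp
    rwa [h2] at h1
  · intro x hx
    rw [mem_singleton] at hx
    subst hx
    exact pair_mem_prod.2 ⟨nat_mem_omega n, hi⟩
  · intro x y z h1 h2
    rw [mem_singleton] at h1 h2
    rw [← h2] at h1
    exact (pair_inj.1 h1).2
  · intro x y h1
    rw [mem_singleton] at h1
    rw [(pair_inj.1 h1).1]
    exact nat_mem_nat.2 (Nat.lt_succ_self n)

theorem extend {p : ZFSet.{u}} (hp : p ∈ Coh M) : ∃ n : ℕ, ∀ i ∈ (two : ZFSet.{u}),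
    p ∪ {pair (nat n) i} ∈ Coh M := by
  have hp' := hp
  rw [mem_Coh hM] at hp'
  obtain ⟨p1, p2, p3, n, p4⟩ := hp'
  refine ⟨n, fun i hi => union_mem hM hp (single_mem hM hi) ?_⟩
  intro x y z h1 h2
  rw [mem_singleton] at h2
  have h3 := p4 x y h1
  rw [(pair_inj.1 h2).1] at h3
  exact absurd (nat_mem_nat.1 h3) (lt_irrefl _)

end

theorem mem_real {G x : ZFSet.{u}} : x ∈ real G ↔ x ∈ ZFSet.omega ∧ ∃ p ∈ G, pair x {∅} ∈ p := by
  unfold real
  rw [mem_sep]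

section

variable {M A : Set ZFSet.{u}} (hM : IsZF M A) {G : ZFSet.{u}} (hG : IsGeneric M (Coh M) G)
include hM hG

theorem not_both {p q x y z : ZFSet.{u}} (hp : p ∈ G) (hq : q ∈ G) (h1 : pair x y ∈ p)
    (h2 : pair x z ∈ q) : y = z := by
  obtain ⟨r, hr, hr1, hr2⟩ := hG.dir p hp q hq
  exact ((mem_Coh hM).1 (hG.sub hr)).2.2.1 x y z (hr1 h1) (hr2 h2)

theorem real_notMem : real G ∉ M := by
  intro hr
  set r := real G with hrdef
  have h : U CC (fun N _ (a : ZFSet.{u} × ZFSet.{u}) => ZFSet.sep (fun p =>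
      ∃ n ∈ ZFSet.omega, (pair n {∅} ∈ p ∧ ¬ n ∈ a.2) ∨ (pair n ∅ ∈ p ∧ n ∈ a.2)) a.1) := by
    apply_rules (transparency := .reducible) (maxDepth := 400) using is_poly
  have hCoh : Coh M ∈ M := Coh_mem hM
  have hD := in_zfset.1 (h.closed hM (a := (Coh M, r)) (by simp [hCoh, hr]))
  obtain ⟨p, hp, hpD⟩ := hG.meets _ hD (fun x hx => (mem_sep.1 hx).1) (by
    intro p hp
    obtain ⟨n, hn⟩ := extend hM hp
    by_cases hnr : nat n ∈ r
    · refine ⟨p ∪ {pair (nat n) ∅}, ?_, fun x hx => mem_union.2 (Or.inl hx)⟩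
      rw [mem_sep]
      exact ⟨hn ∅ (mem_two.2 (Or.inl rfl)), nat n, nat_mem_omega n, Or.inr ⟨by simp, hnr⟩⟩
    · refine ⟨p ∪ {pair (nat n) {∅}}, ?_, fun x hx => mem_union.2 (Or.inl hx)⟩
      rw [mem_sep]
      exact ⟨hn {∅} (mem_two.2 (Or.inr rfl)), nat n, nat_mem_omega n, Or.inl ⟨by simp, hnr⟩⟩)
  rw [mem_sep] at hpD
  obtain ⟨_, n, hn, h1 | h1⟩ := hpD
  · exact h1.2 (mem_real.2 ⟨hn, p, hp, h1.1⟩)
  · obtain ⟨_, q, hq, h2⟩ := mem_real.1 h1.2
    exact zero_ne_one (not_both hM hG hp hq h1.1 h2)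

theorem mem_G_iff {p : ZFSet.{u}} (hp : p ∈ Coh M) : p ∈ G ↔ ∀ n ∈ ZFSet.omega,
    (pair n {∅} ∈ p → n ∈ real G) ∧ (pair n ∅ ∈ p → ¬ n ∈ real G) := by
  constructor
  · intro hpG n hn
    refine ⟨fun h => mem_real.2 ⟨hn, p, hpG, h⟩, fun h h2 => ?_⟩
    obtain ⟨_, q, hq, h2⟩ := mem_real.1 h2
    exact zero_ne_one (not_both hM hG hpG hq h h2)
  · intro H
    have h : U CC (fun N _ (a : ZFSet.{u} × ZFSet.{u}) => ZFSet.sep (fun q =>
        a.2 ⊆ q ∨ ∃ s ∈ a.2, ∃ t ∈ q, Helper22.SC.pfst s = Helper22.SC.pfst t ∧ ¬ s = t) a.1) := by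
      apply_rules (transparency := .reducible) (maxDepth := 400) using is_poly
    have hpM : p ∈ M := ((mem_Coh hM).1 hp).1
    have hD := in_zfset.1 (h.closed hM (a := (Coh M, p)) (by simp [Coh_mem hM, hpM]))
    obtain ⟨q, hq, hqD⟩ := hG.meets _ hD (fun x hx => (mem_sep.1 hx).1) (by
      intro q hq
      by_cases hc : ∀ x y z, pair x y ∈ p → pair x z ∈ q → y = z
      · refine ⟨p ∪ q, ?_, fun x hx => mem_union.2 (Or.inr hx)⟩
        rw [mem_sep]
        exact ⟨union_mem hM hp hq hc, Or.inl (fun x hx => mem_union.2 (Or.inl hx))⟩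
      · push Not at hc
        obtain ⟨x, y, z, h1, h2, h3⟩ := hc
        refine ⟨q, ?_, subset_rfl⟩
        rw [mem_sep]
        exact ⟨hq, Or.inr ⟨_, h1, _, h2, by simp, fun h4 => h3 (pair_inj.1 h4).2⟩⟩)
    rw [mem_sep] at hqD
    obtain ⟨hqC, h1 | h1⟩ := hqD
    · exact hG.up q hq p hp h1
    · exfalso
      obtain ⟨s, hs, t, ht, h2, h3⟩ := h1
      obtain ⟨x, hx, y, hy, rfl⟩ := mem_prod.1 (((mem_Coh hM).1 hp).2.1 hs)
      obtain ⟨x', _, z, hz, rfl⟩ := mem_prod.1 (((mem_Coh hM).1 hqC).2.1 ht)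
      simp only [pfst_pair] at h2
      subst h2
      rcases mem_two.1 hy with rfl | rfl <;> rcases mem_two.1 hz with rfl | rfl
      · exact h3 rfl
      · exact (H x hx).2 hs (mem_real.2 ⟨hx, q, hq, ht⟩)
      · obtain ⟨_, q', hq', h4⟩ := mem_real.1 ((H x hx).1 hs)
        exact zero_ne_one (not_both hM hG hq hq' ht h4)
      · exact h3 rfl

theorem real_mem_iff {K B : Set ZFSet.{u}} (hK : IsZF K B) (hMK : M ⊆ K) :
    real G ∈ K ↔ G ∈ K := by
  constructor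
  · intro hr
    have h : U CC (fun N _ (a : ZFSet.{u} × ZFSet.{u}) => ZFSet.sep (fun p =>
        ∀ n ∈ ZFSet.omega, (pair n {∅} ∈ p → n ∈ a.2) ∧ (pair n ∅ ∈ p → ¬ n ∈ a.2)) a.1) := by
      apply_rules (transparency := .reducible) (maxDepth := 400) using is_poly
    have hD := in_zfset.1 (h.closed hK (a := (Coh M, real G))
      (by simp only [in_prod, in_zfset]; exact ⟨hMK (Coh_mem hM), hr⟩))
    have h2 : G = ZFSet.sep (fun p =>
        ∀ n ∈ ZFSet.omega, (pair n {∅} ∈ p → n ∈ real G) ∧ (pair n ∅ ∈ p → ¬ n ∈ real G))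
        (Coh M) := by
      ext p
      rw [mem_sep]
      constructor
      · intro hp
        exact ⟨hG.sub hp, (mem_G_iff hM hG (hG.sub hp)).1 hp⟩
      · rintro ⟨h1, h2⟩
        exact (mem_G_iff hM hG h1).2 h2
    rw [h2]
    exact hD
  · intro hr
    have h : U CC (fun N _ (a : ZFSet.{u}) => ZFSet.sep (fun n =>
        ∃ p ∈ a, pair n {∅} ∈ p) ZFSet.omega) := by
      apply_rules (transparency := .reducible) (maxDepth := 400) using is_poly
    exact in_zfset.1 (h.closed hK (a := G) (by simpa using hr))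

end

theorem rank_Coh {M A : Set ZFSet.{u}} (hM : IsZF M A) :
    (Coh M).rank < Ordinal.omega0 + Ordinal.omega0 := by
  have h0 : ∀ n : ℕ, (nat n : ZFSet.{u}).rank = n := fun n => Ordinal.rank_toZFSet _
  have h1 : ∀ i ∈ (two : ZFSet.{u}), i.rank < Ordinal.omega0 := by
    intro i hi
    rcases mem_two.1 hi with rfl | rfl
    · simp
    · simp
  have h2 : ∀ p ∈ Coh M, p.rank ≤ Ordinal.omega0 := by
    intro p hp
    rw [rank_le_iff]
    intro s hs
    obtain ⟨x, hx, y, hy, rfl⟩ := mem_prod.1 (((mem_Coh hM).1 hp).2.1 hs)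
    obtain ⟨n, rfl⟩ := mem_omega.1 hx
    have h3 : (nat n : ZFSet.{u}).rank < Ordinal.omega0 := by
      rw [h0]; exact Ordinal.natCast_lt_omega0 n
    have h4 := h1 y hy
    have hs : ∀ a : Ordinal.{u}, a < Ordinal.omega0 → Order.succ a < Ordinal.omega0 :=
      fun a ha => Ordinal.isSuccLimit_omega0.succ_lt ha
    unfold pair
    rw [ZFSet.rank_pair, ZFSet.rank_pair, ZFSet.rank_singleton]
    exact max_lt (hs _ (hs _ h3)) (hs _ (max_lt (hs _ h3) (hs _ h4)))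
  have h3 : (Coh M).rank ≤ Order.succ Ordinal.omega0 := by
    rw [rank_le_iff]
    intro p hp
    exact Order.lt_succ_of_le (h2 p hp)
  refine h3.trans_lt ?_
  rw [Order.succ_eq_add_one]
  exact (add_lt_add_iff_left _).2 Ordinal.one_lt_omega0

theorem st_H1 : ST_F2.{u} → ST_H1.{u} := by
  intro hF2 M A hM
  have hC := hF2 M A (ZFSet.omega.prod two) _ hM (T_mem hM) (J_mem hM) (by
    intro a ha b hb
    rw [mem_sep, mem_Pow] at *
    obtain ⟨⟨ha1, ha2⟩, n, ha3⟩ := ha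
    obtain ⟨⟨hb1, hb2⟩, m, hb3⟩ := hb
    refine ⟨⟨?_, ?_⟩, max n m, ?_⟩
    · have := (U.union (C := CC) (α := ZFSet.{u} × ZFSet.{u}) U.id.fst U.id.snd).closed hM
        (a := (a, b)) (by simp [ha1, hb1])
      simpa using this
    · intro x hx
      rcases mem_union.1 hx with hx | hx
      · exact ha2 hx
      · exact hb2 hx
    · intro x hx
      rcases mem_union.1 hx with hx | hx
      · exact nat_mono (le_max_left _ _) (ha3 hx)
      · exact nat_mono (le_max_right _ _) (hb3 hx))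
  refine ⟨hC.1, empty_mem_Coh hM, hC.2, ?_, ?_⟩
  · intro o ho
    refine ho.2.2.2 _ hC.1 ?_
    exact (rank_Coh hM).trans (ho.2.2.1 _ ho.2.1)
  · intro G hG
    exact ⟨real_notMem hM hG, fun K B hK hMK => real_mem_iff hM hG hK hMK⟩

end Pool.Agent.Helper74.SC.H1
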